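import Mathlib
import Pool.Agent.Q263.PP.Main

/-! # Signs in the power product expansion of the partition function -/

set_option autoImplicit false

open Finset PowerSeries

namespace Pool.Agent.Results.MP_f3871b_nt.Signs

/-- `n` is the sequence of coefficients in the power product expansion of the partition
function: `∑ p(j) x^j = ∏_{k ≥ 1} (1 + n_k x^k)` in `ℤ⟦x⟧`.  For `j ≤ N` the coefficient of `x^j`
in the infinite product is its coefficient in the finite product over `1 ≤ k ≤ N`. -/
def IsPowerProduct (n : ℕ → ℤ) : Prop :=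
  ∀ N : ℕ, ∀ j ≤ N, coeff j (∏ k ∈ Icc 1 N, (1 + C (n k) * X ^ k : ℤ⟦X⟧)) =
    (Fintype.card (Nat.Partition j) : ℤ)

/-- partial products -/
noncomputable def P : ℕ → ℤ⟦X⟧
  | 0 => 1
  | N + 1 => P N * (1 + C ((Fintype.card (Nat.Partition (N + 1)) : ℤ) - coeff (N + 1) (P N)) *
      X ^ (N + 1))

/-- the sequence -/
noncomputable def seq : ℕ → ℤ
  | 0 => 0
  | N + 1 => (Fintype.card (Nat.Partition (N + 1)) : ℤ) - coeff (N + 1) (P N)

lemma prod_eq (N : ℕ) : ∏ k ∈ Icc 1 N, (1 + C (seq k) * X ^ k : ℤ⟦X⟧) = P N := by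
  induction N with
  | zero => simp [P]
  | succ N ih =>
    rw [Finset.prod_Icc_succ_top (by omega), ih, P, seq]

lemma exists_seq : IsPowerProduct seq := by
  intro N
  rw [prod_eq]
  induction N with
  | zero =>
    intro j hj
    have hj0 : j = 0 := by omega
    subst hj0
    rw [P, coeff_one, if_pos rfl]
    have : Fintype.card (Nat.Partition 0) = 1 := Fintype.card_unique
    rw [this]
    rfl
  | succ N ih =>
    intro j hj
    rw [P, mul_add, mul_one, map_add, ← mul_assoc]
    rcases Nat.eq_or_lt_of_le hj with h | h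
    · subst h
      have h0 : coeff (N + 1) (P N * C ((Fintype.card (Nat.Partition (N + 1)) : ℤ) -
          coeff (N + 1) (P N)) * X ^ (N + 1)) =
          (Fintype.card (Nat.Partition (N + 1)) : ℤ) - coeff (N + 1) (P N) := by
        rw [coeff_mul_X_pow', if_pos le_rfl, Nat.sub_self, coeff_mul_C]
        have h1 := ih 0 (by omega)
        have : Fintype.card (Nat.Partition 0) = 1 := Fintype.card_unique
        rw [h1, this]
        push_cast
        ring
      rw [h0]
      ring
    · rw [coeff_mul_X_pow', if_neg (by omega), add_zero]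
      exact ih j (by omega)

/-- **Answer to Q1 (proved).**  The power product expansion of the partition function exists, and
its coefficients satisfy `n(8k+2) < 0`, `n(8k+4) < 0`, `n(8k+6) < 0` and `n(8k) > 0` for every
`k ≥ 1`. -/
theorem result : (∃ n : ℕ → ℤ, IsPowerProduct n) ∧
    ∀ n : ℕ → ℤ, IsPowerProduct n → ∀ k : ℕ, 1 ≤ k →
      n (8 * k + 2) < 0 ∧ n (8 * k + 4) < 0 ∧ n (8 * k + 6) < 0 ∧ 0 < n (8 * k) := by
  refine ⟨⟨seq, exists_seq⟩, fun n hn k hk => ?_⟩
  have hn' : Q263.PP.IsExpansion n := hn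
  refine ⟨?_, ?_, ?_, ?_⟩
  · have h := ((Q263.PP.prop3 hn' (4 * k + 1) (by omega)).1 (by omega) (by omega)).2
    rwa [show 2 * (4 * k + 1) = 8 * k + 2 by ring] at h
  · have h := ((Q263.PP.prop3 hn' (4 * k + 2) (by omega)).1 (by omega) (by omega)).2
    rwa [show 2 * (4 * k + 2) = 8 * k + 4 by ring] at h
  · have h := ((Q263.PP.prop3 hn' (4 * k + 3) (by omega)).1 (by omega) (by omega)).2
    rwa [show 2 * (4 * k + 3) = 8 * k + 6 by ring] at h
  · have h := ((Q263.PP.prop3 hn' (4 * k) (by omega)).2.1 (by omega) (by omega)).2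
    rwa [show 2 * (4 * k) = 8 * k by ring] at h

end Pool.Agent.Results.MP_f3871b_nt.Signs
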